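import Pool.Agent.Y757.GM.Stm

set_option autoImplicit false

/-! Mean value of `log ζ` over the square as a sum over the primes. -/

namespace Pool.Agent.Y510.GM

open MeasureTheory Set Filter Topology Pool.Agent.Y757.LS Pool.Agent.Y757.EM Pool.Agent.Y757.GM ZU
open scoped ENNReal

noncomputable section

def FF (p : ℕ) (q : ℝ × ℝ) : ℝ := -Real.log (1 - (p : ℝ) ^ (-(1 + q.1 + q.2)))

def ZZ (q : ℝ × ℝ) : ℝ := Real.log ‖riemannZeta (1 + q.1 + q.2)‖

def mu (h : ℝ) : Measure (ℝ × ℝ) := (volume.restrict (Ioc 0 h)).prod (volume.restrict (Ioc 0 h))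

lemma mu_ae {h : ℝ} {P : ℝ × ℝ → Prop} (hP : ∀ q : ℝ × ℝ, 0 < q.1 → q.1 ≤ h → 0 < q.2 → q.2 ≤ h → P q) :
    ∀ᵐ q ∂(mu h), P q := by
  unfold mu
  rw [Measure.prod_restrict, ae_restrict_iff' (measurableSet_Ioc.prod measurableSet_Ioc)]
  exact Eventually.of_forall fun q hq => hP q hq.1.1 hq.1.2 hq.2.1 hq.2.2

lemma pow_lt {p : ℕ} (hp : 2 ≤ p) {u : ℝ} (hu : 0 ≤ u) : 0 < (p : ℝ) ^ (-(1 + u)) ∧ (p : ℝ) ^ (-(1 + u)) ≤ 1 / 2 := by
  have hp0 : (0:ℝ) < p := by exact_mod_cast (by omega : 0 < p)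
  have hp1 : (2:ℝ) ≤ p := by exact_mod_cast hp
  refine ⟨Real.rpow_pos_of_pos hp0 _, ?_⟩
  have h1 : (p : ℝ) ^ (-(1 + u)) ≤ (p : ℝ) ^ (-1 : ℝ) :=
    Real.rpow_le_rpow_of_exponent_le (by linarith) (by linarith)
  rw [Real.rpow_neg_one] at h1
  refine h1.trans ?_
  rw [inv_eq_one_div]
  exact one_div_le_one_div_of_le (by norm_num) hp1

lemma FF_bound {p : ℕ} (hp : 2 ≤ p) {q : ℝ × ℝ} (h1 : 0 ≤ q.1) (h2 : 0 ≤ q.2) :
    0 ≤ FF p q ∧ FF p q ≤ Real.log 2 := by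
  have h := pow_lt hp (u := q.1 + q.2) (by linarith)
  rw [← add_assoc] at h
  unfold FF
  constructor
  · have : Real.log (1 - (p : ℝ) ^ (-(1 + q.1 + q.2))) ≤ 0 := Real.log_nonpos (by linarith [h.2]) (by linarith [h.1])
    linarith
  · have h3 : Real.log (1 / 2) ≤ Real.log (1 - (p : ℝ) ^ (-(1 + q.1 + q.2))) :=
      Real.log_le_log (by norm_num) (by linarith [h.2])
    rw [one_div, Real.log_inv] at h3
    linarith

lemma FF_meas (p : ℕ) : Measurable (FF p) := by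
  unfold FF
  refine Measurable.neg (Real.measurable_log.comp (Measurable.sub measurable_const ?_))
  refine Measurable.pow measurable_const ?_
  fun_prop

lemma ZZ_meas : Measurable ZZ := by
  unfold ZZ
  refine Real.measurable_log.comp (Measurable.norm ?_)
  have h1 : Measurable riemannZeta := by
    refine measurable_of_continuousOn_compl_singleton 1 ?_
    intro s hs
    exact (differentiableAt_riemannZeta hs).continuousAt.continuousWithinAt
  exact h1.comp (by fun_prop)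

lemma FF_psi {p : ℕ} (hp : 2 ≤ p) {q : ℝ × ℝ} (h1 : 0 ≤ q.1) (h2 : 0 ≤ q.2) :
    psi p (1 / 2 + q.1 + q.2) 0 = FF p q := by
  have hp0 : (0:ℝ) ≤ p := by positivity
  have h := pow_lt hp (u := q.1 + q.2) (by linarith)
  rw [← add_assoc] at h
  unfold psi FF pt
  have e : (p : ℂ) ^ (-(1 / 2 + ((1 / 2 + q.1 + q.2 : ℝ) : ℂ) + ((0:ℝ) : ℂ) * Complex.I)) =
      (((p : ℝ) ^ (-(1 + q.1 + q.2)) : ℝ) : ℂ) := by
    rw [Complex.ofReal_cpow hp0]
    congr 1
    push_cast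
    ring
  rw [e, ← Complex.ofReal_one, ← Complex.ofReal_sub, Complex.norm_real, Real.norm_of_nonneg (by linarith [h.2])]

lemma ZZ_lz (q : ℝ × ℝ) : lz (1 / 2 + q.1 + q.2) 0 = ZZ q := by
  unfold lz ZZ pt
  congr 3
  push_cast
  ring

lemma FF_hasSum {q : ℝ × ℝ} (h1 : 0 < q.1) (h2 : 0 < q.2) : HasSum (fun p : Nat.Primes => FF p q) (ZZ q) := by
  have h := lz_hasSum (s := 1 / 2 + q.1 + q.2) (by linarith) 0
  rw [ZZ_lz] at h
  have e : (fun p : Nat.Primes => psi p (1 / 2 + q.1 + q.2) 0) = fun p : Nat.Primes => FF p q := by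
    funext p
    exact FF_psi p.2.two_le h1.le h2.le
  rwa [e] at h

lemma ZZ_le : ∃ C : ℝ, ∀ q : ℝ × ℝ, 0 < q.1 → q.1 ≤ 1 → 0 < q.2 → q.2 ≤ 1 → ZZ q ≤ C - Real.log q.1 := by
  obtain ⟨K, hK, hb⟩ := GG_bd 0
  refine ⟨Real.log (6 * K + 1), fun q h1 h1' h2 h2' => ?_⟩
  have hb1 := hb (1 / 2 + q.1 + q.2) 0 (by linarith) (by linarith) (by simp)
  have hpt : pt (1 / 2 + q.1 + q.2) 0 = ((1 + q.1 + q.2 : ℝ) : ℂ) := by
    unfold pt; push_cast; ring
  have hne : pt (1 / 2 + q.1 + q.2) 0 ≠ 1 := by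
    rw [hpt, ← Complex.ofReal_one]
    intro h
    have := Complex.ofReal_injective h
    linarith
  rw [GG_of_ne hne, norm_mul, hpt] at hb1
  have e1 : ‖(((1 + q.1 + q.2 : ℝ) : ℂ) - 1) / (((1 + q.1 + q.2 : ℝ) : ℂ) + 3)‖ = (q.1 + q.2) / (4 + q.1 + q.2) := by
    have : (((1 + q.1 + q.2 : ℝ) : ℂ) - 1) / (((1 + q.1 + q.2 : ℝ) : ℂ) + 3) =
        (((q.1 + q.2) / (4 + q.1 + q.2) : ℝ) : ℂ) := by
      push_cast; congr 1 <;> ring
    rw [this, Complex.norm_real, Real.norm_of_nonneg (by positivity)]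
  have e2 : ZZ q = Real.log ‖riemannZeta ((1 + q.1 + q.2 : ℝ) : ℂ)‖ := by
    unfold ZZ; congr 3; push_cast; ring
  rw [e1] at hb1
  set z := ‖riemannZeta ((1 + q.1 + q.2 : ℝ) : ℂ)‖ with hz
  have hz0 : 0 < z := by
    rw [hz, norm_pos_iff]
    refine riemannZeta_ne_zero_of_one_lt_re ?_
    rw [Complex.ofReal_re]; linarith
  have h3 : z * (q.1 + q.2) ≤ K * (4 + q.1 + q.2) := by
    rw [div_mul_eq_mul_div, div_le_iff₀ (by positivity)] at hb1
    linarith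
  have h4 : z * q.1 ≤ 6 * K + 1 := by nlinarith
  have h5 := Real.log_le_log (by positivity) h4
  rw [Real.log_mul hz0.ne' h1.ne'] at h5
  rw [e2]
  linarith

lemma ZZ_nonneg {q : ℝ × ℝ} (h1 : 0 < q.1) (h2 : 0 < q.2) : 0 ≤ ZZ q :=
  (FF_hasSum h1 h2).nonneg fun p => (FF_bound p.2.two_le h1.le h2.le).1

instance (h : ℝ) : IsFiniteMeasure (mu h) := by unfold mu; infer_instance

lemma ZZ_int {h : ℝ} (h0 : 0 < h) (h1 : h ≤ 1) : Integrable ZZ (mu h) := by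
  obtain ⟨C, hC⟩ := ZZ_le
  have hl : Integrable (fun x : ℝ => C - Real.log x) (volume.restrict (Ioc 0 h)) := by
    have := (intervalIntegral.intervalIntegrable_log' (a := 0) (b := h)).1
    exact (integrable_const C).sub this
  have hl2 : Integrable (fun q : ℝ × ℝ => C - Real.log q.1) (mu h) := hl.comp_fst _
  refine Integrable.mono' hl2 ZZ_meas.aestronglyMeasurable (mu_ae fun q ha ha' hb hb' => ?_)
  rw [Real.norm_of_nonneg (ZZ_nonneg ha hb)]
  exact hC q ha (ha'.trans h1) hb (hb'.trans h1)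

lemma FF_int {p : ℕ} (hp : 2 ≤ p) (h : ℝ) : Integrable (FF p) (mu h) := by
  refine Integrable.mono' (integrable_const (Real.log 2)) (FF_meas p).aestronglyMeasurable
    (mu_ae fun q ha _ hb _ => ?_)
  have := FF_bound hp ha.le hb.le
  rw [Real.norm_of_nonneg this.1]
  exact this.2

lemma FF_sum {h : ℝ} (h0 : 0 < h) (h1 : h ≤ 1) :
    HasSum (fun p : Nat.Primes => ∫ q, FF p q ∂(mu h)) (∫ q, ZZ q ∂(mu h)) := by
  have hn : ∀ p : Nat.Primes, ∫ q, ‖FF p q‖ ∂(mu h) = ∫ q, FF p q ∂(mu h) := fun p =>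
    integral_congr_ae (mu_ae fun q ha _ hb _ => Real.norm_of_nonneg (FF_bound p.2.two_le ha.le hb.le).1)
  have hs : Summable (fun p : Nat.Primes => ∫ q, ‖FF p q‖ ∂(mu h)) := by
    refine summable_of_sum_le (c := ∫ q, ZZ q ∂(mu h)) (fun p => integral_nonneg fun q => norm_nonneg _) fun u => ?_
    simp only [hn]
    rw [← integral_finsetSum u fun p _ => FF_int p.2.two_le h]
    refine integral_mono_ae (integrable_finsetSum u fun p _ => FF_int p.2.two_le h) (ZZ_int h0 h1)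
      (mu_ae fun q ha _ hb _ => ?_)
    exact sum_le_hasSum u (fun p _ => (FF_bound p.2.two_le ha.le hb.le).1) (FF_hasSum ha hb)
  have h2 := hasSum_integral_of_summable_integral_norm (fun p : Nat.Primes => FF_int p.2.two_le h) hs
  have h3 : ∫ q, ∑' p : Nat.Primes, FF p q ∂(mu h) = ∫ q, ZZ q ∂(mu h) :=
    integral_congr_ae (mu_ae fun q ha _ hb _ => (FF_hasSum ha hb).tsum_eq)
  rwa [h3] at h2

lemma iter {f : ℝ × ℝ → ℝ} {h : ℝ} (h0 : 0 < h) (hf : Integrable f (mu h)) :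
    ∫ x in (0:ℝ)..h, ∫ y in (0:ℝ)..h, f (x, y) = ∫ q, f q ∂(mu h) := by
  unfold mu at hf ⊢
  rw [integral_prod _ hf, intervalIntegral.integral_of_le h0.le]
  refine integral_congr_ae (Eventually.of_forall fun x => ?_)
  exact intervalIntegral.integral_of_le h0.le

theorem t_GZ : S_GZ := by
  intro h h0 h1
  have h2 := (FF_sum h0 h1).mul_left (1 / h ^ 2)
  have e1 : Zh h = 1 / h ^ 2 * ∫ q, ZZ q ∂(mu h) := by
    rw [← iter h0 (ZZ_int h0 h1)]
    rfl
  have e2 : (fun p : Nat.Primes => Gp p h) = fun p : Nat.Primes => 1 / h ^ 2 * ∫ q, FF p q ∂(mu h) := by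
    funext p
    rw [← iter h0 (FF_int p.2.two_le h)]
    rfl
  rw [e1, e2]
  exact h2

end

end Pool.Agent.Y510.GM
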